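import Pool.Agent.H47.RP.Targets3

/-!
# Board `rpr_modules`, row `RPJ`

If a measure has the structure which Q1 of MP_34b97f_an predicts, then the remote past does not
predict the sign: the change of the sign of the coordinate `x 0` preserves the measure.
-/

set_option autoImplicit false

open MeasureTheory ProbabilityTheory Filter Topology Finset
open scoped ENNReal

namespace Pool.Agent.H90.RPR

open Pool.Agent.H89.MT (I1 X fair bern o1 m1)
open Pool.Agent.H92.RR (Pred mu)
open Pool.Agent.H36.RP (past past_le remote remote_le remote_le_past T_APX)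
open Pool.Agent.H47.RP (T_RPJ)

/-- the change of the sign in `[-1,1]` -/
def ng (a : I1) : I1 := ⟨-(a : ℝ), by
  have h := a.2
  exact ⟨by linarith [h.2], by linarith [h.1]⟩⟩

theorem ng_coe (a : I1) : ((ng a : I1) : ℝ) = -(a : ℝ) := rfl

theorem measurable_ng : Measurable ng :=
  Measurable.subtype_mk measurable_subtype_coe.neg

/-- the change of the sign of the coordinate `x 0` -/
def fl (x : X) : X := fun j => (if j = 0 then ng else id) (x j)

theorem fl_zero (x : X) : fl x 0 = ng (x 0) := by simp [fl]

theorem fl_ne (x : X) (j : ℤ) (h : j ≠ 0) : fl x j = x j := by simp [fl, h]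

theorem measurable_fl : Measurable fl := by
  refine measurable_pi_lambda _ fun j => ?_
  unfold fl
  split_ifs
  · exact measurable_ng.comp (measurable_pi_apply j)
  · exact measurable_pi_apply j

theorem fair_map_ng : fair.map ng = fair := by
  have h1 : ng o1 = m1 := Subtype.ext rfl
  have h2 : ng m1 = o1 := Subtype.ext (by simp [ng, m1, o1])
  unfold fair
  rw [Measure.map_add _ _ measurable_ng, Measure.map_smul, Measure.map_smul,
    Measure.map_dirac' measurable_ng, Measure.map_dirac' measurable_ng, h1, h2, add_comm]

instance : IsProbabilityMeasure bern := by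
  unfold bern
  infer_instance

theorem bern_map_fl : bern.map fl = bern := by
  have hm : ∀ j : ℤ, Measurable ((if j = 0 then ng else id) : I1 → I1) := by
    intro j
    split_ifs
    · exact measurable_ng
    · exact measurable_id
  have h := Measure.infinitePi_map_pi (μ := fun _ : ℤ => fair)
    (f := fun (j : ℤ) => ((if j = 0 then ng else id) : I1 → I1)) hm
  unfold bern
  refine h.trans ?_
  congr 1
  funext j
  split_ifs
  · exact fair_map_ng
  · exact Measure.map_id

theorem measurable_st : Measurable fun (z : X × X) (j : ℤ) => mu (z.1 j) (z.2 j) := by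
  refine measurable_pi_lambda _ fun j => ?_
  refine Measurable.subtype_mk ?_
  have h1 : Measurable fun z : X × X => ((z.1 j : I1) : ℝ) :=
    measurable_subtype_coe.comp ((measurable_pi_apply j).comp measurable_fst)
  have h2 : Measurable fun z : X × X => ((z.2 j : I1) : ℝ) :=
    measurable_subtype_coe.comp ((measurable_pi_apply j).comp measurable_snd)
  exact h1.mul h2

/-- The measure `star α` is invariant under the change of the sign of the coordinate `x 0`. -/
theorem star_map_fl (α : Measure X) [IsProbabilityMeasure α] :
    (Pool.Agent.H92.RR.star α).map fl = Pool.Agent.H92.RR.star α := by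
  have h1 : (α.prod bern).map (Prod.map id fl) = α.prod bern := by
    rw [← Measure.map_prod_map α bern measurable_id measurable_fl, Measure.map_id, bern_map_fl]
  unfold Pool.Agent.H92.RR.star
  rw [Measure.map_map measurable_fl measurable_st]
  conv_rhs => rw [← h1]
  rw [Measure.map_map measurable_st (measurable_id.prodMap measurable_fl)]
  congr 1
  funext z j
  change fl (fun j => mu (z.1 j) (z.2 j)) j = mu (z.1 j) (fl z.2 j)
  by_cases hj : j = 0
  · subst hj
    rw [fl_zero, fl_zero]
    refine Subtype.ext ?_
    change -((z.1 0 : ℝ) * (z.2 0 : ℝ)) = (z.1 0 : ℝ) * -(z.2 0 : ℝ)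
    ring
  · rw [fl_ne _ _ hj, fl_ne _ _ hj]

/-- The sets of the past up to the time `-1` are invariant under the change of sign. -/
theorem past_fl (A : Set X) (hA : MeasurableSet[past (-1)] A) : fl ⁻¹' A = A := by
  have h : past (-1) ≤ MeasurableSpace.invariants fl := by
    refine iSup_le fun k => iSup_le fun hk => ?_
    rintro _ ⟨t, ht, rfl⟩
    refine ⟨measurable_pi_apply k ht, ?_⟩
    ext x
    have : fl x k = x k := fl_ne x k (by omega)
    simp only [Set.mem_preimage, this]
  exact (h A hA).2

/-- The theorem without the hypothesis on approximations. -/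
theorem pf_RPJ' : T_RPJ := by
  intro u κ _ hP
  obtain ⟨α, hα, -, -, hκ⟩ := hP.fac
  have hfl : κ.map fl = κ := by
    rw [hκ]
    exact star_map_fl α
  have hm : Measurable fun x : X => (x 0 : ℝ) :=
    measurable_subtype_coe.comp (measurable_pi_apply 0)
  have hint : Integrable (fun x : X => (x 0 : ℝ)) κ := by
    refine Integrable.of_bound hm.aestronglyMeasurable 1 (Filter.Eventually.of_forall fun x => ?_)
    rw [Real.norm_eq_abs]
    exact abs_le.2 ⟨(x 0).2.1, (x 0).2.2⟩
  refine (ae_eq_condExp_of_forall_setIntegral_eq remote_le hint ?_ ?_ ?_).symm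
  · intro A _ _
    exact integrableOn_zero
  · intro A hA _
    have hA' : MeasurableSet[past (-1)] A := remote_le_past (-1) A hA
    have hA0 : MeasurableSet A := past_le (-1) A hA'
    have hinv := past_fl A hA'
    have e1 : ∫ x in A, (x 0 : ℝ) ∂κ = ∫ x in A, -(x 0 : ℝ) ∂κ := by
      rw [← integral_indicator hA0, ← integral_indicator hA0]
      conv_lhs => rw [← hfl]
      rw [integral_map measurable_fl.aemeasurable (hm.indicator hA0).aestronglyMeasurable]
      refine integral_congr_ae (Filter.Eventually.of_forall fun x => ?_)
      have hx : fl x ∈ A ↔ x ∈ A := by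
        change x ∈ fl ⁻¹' A ↔ x ∈ A
        rw [hinv]
      by_cases h : x ∈ A
      · simp only [Set.indicator_of_mem h, Set.indicator_of_mem (hx.2 h), fl_zero, ng_coe]
      · simp only [Set.indicator_of_notMem h, Set.indicator_of_notMem (fun h' => h (hx.1 h'))]
    have e2 : ∫ x in A, -(x 0 : ℝ) ∂κ = -∫ x in A, (x 0 : ℝ) ∂κ := integral_neg _
    have e3 : ∫ x in A, (x 0 : ℝ) ∂κ = 0 := by linarith [e1.trans e2]
    rw [e3]
    simp
  · exact (stronglyMeasurable_zero (α := X)).aestronglyMeasurable

/-- The row `RPJ`. -/
theorem pf_RPJ : T_APX → T_RPJ := fun _ => pf_RPJ'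

end Pool.Agent.H90.RPR
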